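import Mathlib

/-!
Generic reduction theory for `GL_2` over a valued field: Iwasawa decomposition with respect
to a valuation, and the lattice reduction `GL_2(k[t]) \ GL_2(k((1/t))) / Z K = N`.
-/

namespace Pool.Agent.T2h93.AL

open Matrix

section gen

variable {L : Type*} [Field L] {Γ : Type*} [LinearOrderedCommGroupWithZero Γ]
  (v : Valuation L Γ)

/-- The matrix `[[a, b], [0, d]]` as an element of `GL_2`. -/
noncomputable def up (a d : Lˣ) (b : L) : GL (Fin 2) L :=
  GeneralLinearGroup.mkOfDetNeZero !![(a : L), b; 0, (d : L)]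
    (by simp [Matrix.det_fin_two])

/-- The matrix `[[a, 0], [c, d]]`. -/
noncomputable def lo (a d : Lˣ) (c : L) : GL (Fin 2) L :=
  GeneralLinearGroup.mkOfDetNeZero !![(a : L), 0; c, (d : L)]
    (by simp [Matrix.det_fin_two])

/-- The Weyl element `[[0, 1], [1, 0]]`. -/
noncomputable def sw : GL (Fin 2) L :=
  GeneralLinearGroup.mkOfDetNeZero !![0, 1; 1, 0]
    (by simp [Matrix.det_fin_two])

/-- Integral invertible matrices for the valuation `v`. -/
def KO (k : GL (Fin 2) L) : Prop :=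
  (∀ i j, v ((k : Matrix (Fin 2) (Fin 2) L) i j) ≤ 1) ∧
    v (k : Matrix (Fin 2) (Fin 2) L).det = 1

theorem up_coe (a d : Lˣ) (b : L) :
    ((up a d b : GL (Fin 2) L) : Matrix (Fin 2) (Fin 2) L) = !![(a : L), b; 0, (d : L)] := rfl

theorem lo_coe (a d : Lˣ) (c : L) :
    ((lo a d c : GL (Fin 2) L) : Matrix (Fin 2) (Fin 2) L) = !![(a : L), 0; c, (d : L)] := rfl

theorem sw_coe : ((sw : GL (Fin 2) L) : Matrix (Fin 2) (Fin 2) L) = !![0, 1; 1, 0] := rfl

variable {v}

theorem KO.one : KO v (1 : GL (Fin 2) L) := by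
  constructor
  · intro i j
    fin_cases i <;> fin_cases j <;> simp
  · simp

theorem KO.mul {k l : GL (Fin 2) L} (hk : KO v k) (hl : KO v l) : KO v (k * l) := by
  constructor
  · intro i j
    rw [GeneralLinearGroup.coe_mul, Matrix.mul_apply, Fin.sum_univ_two]
    refine (v.map_add _ _).trans (max_le ?_ ?_)
    · rw [map_mul]; exact mul_le_one' (hk.1 _ _) (hl.1 _ _)
    · rw [map_mul]; exact mul_le_one' (hk.1 _ _) (hl.1 _ _)
  · rw [GeneralLinearGroup.coe_mul, Matrix.det_mul, map_mul, hk.2, hl.2, one_mul]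

theorem KO.inv {k : GL (Fin 2) L} (hk : KO v k) : KO v k⁻¹ := by
  have hd : (k : Matrix (Fin 2) (Fin 2) L).det ≠ 0 := by
    intro h
    have := hk.2
    rw [h, map_zero] at this
    exact zero_ne_one this
  have hi : ((k⁻¹ : GL (Fin 2) L) : Matrix (Fin 2) (Fin 2) L)
      = ((k : Matrix (Fin 2) (Fin 2) L).det)⁻¹ • (k : Matrix (Fin 2) (Fin 2) L).adjugate := by
    rw [Matrix.coe_units_inv, Matrix.inv_def, Ring.inverse_eq_inv']
  have hdi : v ((k : Matrix (Fin 2) (Fin 2) L).det)⁻¹ = 1 := by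
    rw [map_inv₀, hk.2, inv_one]
  constructor
  · intro i j
    rw [hi, Matrix.smul_apply, smul_eq_mul, map_mul, hdi, one_mul, Matrix.adjugate_fin_two]
    fin_cases i <;> fin_cases j <;> simp <;> exact hk.1 _ _
  · have h1 : (k : Matrix (Fin 2) (Fin 2) L).det
        * ((k⁻¹ : GL (Fin 2) L) : Matrix (Fin 2) (Fin 2) L).det = 1 := by
      rw [← Matrix.det_mul, ← GeneralLinearGroup.coe_mul, mul_inv_cancel]
      simp
    have h2 := congrArg v h1
    rw [map_mul, hk.2, one_mul, map_one] at h2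
    exact h2

/-- Iwasawa decomposition. -/
theorem iwasawa (g : GL (Fin 2) L) :
    ∃ (a d : Lˣ) (b : L) (k : GL (Fin 2) L), KO v k ∧ g = up a d b * k := by
  classical
  set M : Matrix (Fin 2) (Fin 2) L := (g : Matrix (Fin 2) (Fin 2) L) with hM
  have hdet : M.det ≠ 0 := by
    have : IsUnit M.det := by
      rw [← Matrix.isUnit_iff_isUnit_det]
      exact g.isUnit
    exact this.ne_zero
  rw [Matrix.det_fin_two] at hdet
  by_cases h : v (M 1 0) ≤ v (M 1 1)
  · -- the entry `M 1 1` is nonzero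
    have h11 : M 1 1 ≠ 0 := by
      intro h0
      rw [h0, map_zero] at h
      have h10 : M 1 0 = 0 := by
        rw [← v.zero_iff]; exact le_antisymm h zero_le
      apply hdet
      rw [h0, h10]; ring
    have hq : v (M 1 0 / M 1 1) ≤ 1 := by
      rw [map_div₀]
      exact div_le_one_of_le₀ h zero_le
    refine ⟨Units.mk0 ((M 0 0 * M 1 1 - M 0 1 * M 1 0) / M 1 1) (div_ne_zero hdet h11),
      Units.mk0 (M 1 1) h11, M 0 1, lo 1 1 (M 1 0 / M 1 1), ?_, ?_⟩
    · constructor
      · intro i j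
        rw [lo_coe]
        fin_cases i <;> fin_cases j <;> simp
        simpa using hq
      · rw [lo_coe, Matrix.det_fin_two]; simp
    · ext i j
      rw [GeneralLinearGroup.coe_mul, up_coe, lo_coe]
      fin_cases i <;> fin_cases j <;> simp [Matrix.mul_apply, Fin.sum_univ_two, ← hM]
      · field_simp
        ring
      · field_simp
  · have h' : v (M 1 1) < v (M 1 0) := not_le.mp h
    have h10 : M 1 0 ≠ 0 := by
      intro h0
      rw [h0, map_zero] at h'
      exact absurd h' (not_lt.mpr zero_le)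
    have hq : v (M 1 1 / M 1 0) ≤ 1 := by
      rw [map_div₀]
      exact div_le_one_of_le₀ h'.le zero_le
    have hdet' : M 0 1 * M 1 0 - M 0 0 * M 1 1 ≠ 0 := by
      intro h0; apply hdet; linear_combination -h0
    refine ⟨Units.mk0 ((M 0 1 * M 1 0 - M 0 0 * M 1 1) / M 1 0) (div_ne_zero hdet' h10),
      Units.mk0 (M 1 0) h10, M 0 0, lo 1 1 (M 1 1 / M 1 0) * sw, ?_, ?_⟩
    · refine KO.mul ⟨?_, ?_⟩ ⟨?_, ?_⟩
      · intro i j
        rw [lo_coe]
        fin_cases i <;> fin_cases j <;> simp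
        simpa using hq
      · rw [lo_coe, Matrix.det_fin_two]; simp
      · intro i j
        rw [sw_coe]
        fin_cases i <;> fin_cases j <;> simp
      · rw [sw_coe, Matrix.det_fin_two]; simp
    · ext i j
      rw [GeneralLinearGroup.coe_mul, GeneralLinearGroup.coe_mul, up_coe, lo_coe, sw_coe]
      fin_cases i <;> fin_cases j <;> simp [Matrix.mul_apply, Fin.sum_univ_two, ← hM]
      · field_simp
        ring
      · field_simp

theorem KO_up {a d : Lˣ} {b : L} (ha : v (a : L) = 1) (hd : v (d : L) = 1) (hb : v b ≤ 1) :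
    KO v (up a d b) := by
  constructor
  · intro i j
    rw [up_coe]
    fin_cases i <;> fin_cases j <;> simp [ha, hd]
    simpa using hb
  · rw [up_coe, Matrix.det_fin_two]; simp [ha, hd]

theorem KO_lo {a d : Lˣ} {b : L} (ha : v (a : L) = 1) (hd : v (d : L) = 1) (hb : v b ≤ 1) :
    KO v (lo a d b) := by
  constructor
  · intro i j
    rw [lo_coe]
    fin_cases i <;> fin_cases j <;> simp [ha, hd]
    simpa using hb
  · rw [lo_coe, Matrix.det_fin_two]; simp [ha, hd]

theorem KO_sw : KO v (sw : GL (Fin 2) L) := by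
  constructor
  · intro i j
    rw [sw_coe]
    fin_cases i <;> fin_cases j <;> simp
  · rw [sw_coe, Matrix.det_fin_two]; simp

theorem up_mul_up (a d a' d' : Lˣ) (b b' : L) :
    up a d b * up a' d' b' = up (a * a') (d * d') (a * b' + b * d') := by
  ext i j
  rw [GeneralLinearGroup.coe_mul, up_coe, up_coe, up_coe]
  fin_cases i <;> fin_cases j <;> simp [Matrix.mul_apply, Fin.sum_univ_two]

theorem sw_mul_sw : (sw : GL (Fin 2) L) * sw = 1 := by
  ext i j
  rw [GeneralLinearGroup.coe_mul, sw_coe]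
  fin_cases i <;> fin_cases j <;> simp [Matrix.mul_apply, Fin.sum_univ_two]

theorem up_zz_comm (z : Lˣ) (g : GL (Fin 2) L) : up z z 0 * g = g * up z z 0 := by
  ext i j
  rw [GeneralLinearGroup.coe_mul, GeneralLinearGroup.coe_mul, up_coe]
  fin_cases i <;> fin_cases j <;> simp [Matrix.mul_apply, Fin.sum_univ_two, mul_comm]

end gen

section red

open WithZero

variable {L : Type*} [Field L] {v : Valuation L ℤᵐ⁰}

theorem red_aux (A : Set L) (S : Subgroup (GL (Fin 2) L)) (hsw : sw ∈ S)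
    (hA : ∀ a ∈ A, up 1 1 a ∈ S) (hL : ∀ x : L, ∃ a ∈ A, v (x - a) < 1)
    (t : Lˣ) (ht : v (t : L) = exp (1 : ℤ)) :
    ∀ (N : ℕ) (m : ℤ) (y : L), -m ≤ N → ∃ γ ∈ S, ∃ (n : ℕ) (z : Lˣ) (k : GL (Fin 2) L),
      KO v k ∧ up (t ^ m) 1 y = γ * up (t ^ n) 1 0 * (up z z 0 * k) := by
  have htm : ∀ m : ℤ, v ((t ^ m : Lˣ) : L) = exp m := by
    intro m
    rw [Units.val_zpow_eq_zpow_val, map_zpow₀, ht, ← WithZero.exp_zsmul]
    simp
  -- the good cases
  have good0 : ∀ (m : ℤ) (y : L), v y ≤ exp m → ∃ γ ∈ S, ∃ (n : ℕ) (z : Lˣ)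
      (k : GL (Fin 2) L), KO v k ∧ up (t ^ m) 1 y = γ * up (t ^ n) 1 0 * (up z z 0 * k) := by
    intro m y hy
    have hy1 : v (y / ((t ^ m : Lˣ) : L)) ≤ 1 := by
      rw [map_div₀, htm]
      exact div_le_one_of_le₀ hy zero_le
    have e1 : up (t ^ m) 1 y = up (t ^ m) 1 0 * up 1 1 (y / ((t ^ m : Lˣ) : L)) := by
      rw [up_mul_up]
      congr 1
      · simp
      · simp
      · field_simp
        simp
    rcases le_or_gt 0 m with hm | hm
    · obtain ⟨n, rfl⟩ := Int.eq_ofNat_of_zero_le hm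
      refine ⟨1, S.one_mem, n, 1, up 1 1 (y / ((t ^ (n : ℤ) : Lˣ) : L)),
        KO_up (by simp) (by simp) hy1, ?_⟩
      rw [e1, one_mul, zpow_natCast]
      congr 1
      rw [up_mul_up]
      simp
    · obtain ⟨n, hn⟩ := Int.eq_ofNat_of_zero_le (show 0 ≤ -m by omega)
      refine ⟨sw, hsw, n, t ^ m, sw * up 1 1 (y / ((t ^ m : Lˣ) : L)),
        KO_sw.mul (KO_up (by simp) (by simp) hy1), ?_⟩
      rw [e1, ← mul_assoc, ← mul_assoc]
      congr 1
      have e2 : (t ^ n : Lˣ) * t ^ m = 1 := by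
        rw [← zpow_natCast, ← _root_.zpow_add]
        have : (n : ℤ) + m = 0 := by omega
        rw [this, zpow_zero]
      rw [mul_assoc sw, up_mul_up, e2]
      ext i j
      rw [GeneralLinearGroup.coe_mul, GeneralLinearGroup.coe_mul, up_coe, up_coe, sw_coe]
      fin_cases i <;> fin_cases j <;> simp [Matrix.mul_apply, Fin.sum_univ_two]
  intro N
  induction N with
  | zero =>
    intro m y hm
    obtain ⟨a, ha, hay⟩ := hL y
    obtain ⟨γ, hγ, n, z, k, hk, e⟩ := good0 m (y - a) (hay.le.trans (by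
      rw [← exp_zero]; exact exp_le_exp.mpr (by simpa using hm)))
    refine ⟨up 1 1 a * γ, S.mul_mem (hA a ha) hγ, n, z, k, hk, ?_⟩
    rw [mul_assoc, mul_assoc, ← mul_assoc γ, ← e, up_mul_up]
    simp
  | succ N ih =>
    intro m y hm
    obtain ⟨a, ha, hay⟩ := hL y
    -- reduce to `y - a`
    suffices H : ∃ γ ∈ S, ∃ (n : ℕ) (z : Lˣ) (k : GL (Fin 2) L), KO v k ∧
        up (t ^ m) 1 (y - a) = γ * up (t ^ n) 1 0 * (up z z 0 * k) by
      obtain ⟨γ, hγ, n, z, k, hk, e⟩ := H
      refine ⟨up 1 1 a * γ, S.mul_mem (hA a ha) hγ, n, z, k, hk, ?_⟩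
      rw [mul_assoc, mul_assoc, ← mul_assoc γ, ← e, up_mul_up]
      simp
    generalize y - a = w at hay
    by_cases hw : v w ≤ exp m
    · exact good0 m w hw
    · have hw' : exp m < v w := not_le.mp hw
      have hw0 : w ≠ 0 := by
        rintro rfl
        rw [map_zero] at hw'
        exact absurd hw' (not_lt.mpr zero_le)
      obtain ⟨e, he⟩ : ∃ e : ℤ, v w = exp e := by
        refine ⟨log (v w), (exp_log ?_).symm⟩
        rwa [ne_eq, v.zero_iff]
      have hme : m < e := by rw [he] at hw'; exact exp_lt_exp.mp hw'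
      have he0 : e < 0 := by
        rw [he, ← exp_zero] at hay; exact exp_lt_exp.mp hay
      set W : Lˣ := Units.mk0 w hw0 with hW
      have hWc : (W : L) = w := rfl
      -- the unit
      set u : Lˣ := -(t ^ (2 * e)) * (W ^ 2)⁻¹ with hu
      have hvu : v (u : L) = 1 := by
        rw [hu]
        simp only [Units.val_mul, Units.val_neg, map_mul, Units.val_inv_eq_inv_val,
          Units.val_pow_eq_pow_val, map_inv₀, map_pow, hWc, he]
        rw [Valuation.map_neg, htm, ← WithZero.exp_nsmul, ← WithZero.exp_neg, ← WithZero.exp_add]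
        simp
      obtain ⟨γ, hγ, n, z, k, hk, e1⟩ := ih (m - 2 * e) (w⁻¹) (by push_cast at hm; omega)
      refine ⟨sw * γ, S.mul_mem hsw hγ, n, z * W,
        k * up u 1 0 * lo 1 1 (((t ^ m : Lˣ) : L) / w), ?_, ?_⟩
      · refine (hk.mul (KO_up hvu (by simp) (by simp))).mul (KO_lo (by simp) (by simp) ?_)
        rw [map_div₀, htm]
        exact div_le_one_of_le₀ hw'.le zero_le
      · have e2 : up (z * W) (z * W) 0 = up z z 0 * up W W (0 : L) := by
          rw [up_mul_up]; simp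
        have e3 : sw * γ * up (t ^ n) 1 0 * (up (z * W) (z * W) 0 *
            (k * up u 1 0 * lo 1 1 (((t ^ m : Lˣ) : L) / w)))
            = sw * ((γ * up (t ^ n) 1 0 * (up z z 0 * k)) * up u 1 0 * up W W 0 *
              lo 1 1 (((t ^ m : Lˣ) : L) / w)) := by
          rw [e2]
          have := up_zz_comm W (k * up u 1 0)
          simp only [mul_assoc] at this ⊢
          rw [← mul_assoc (up W W 0) k, ← mul_assoc (up W W 0 * k)]
          rw [mul_assoc (up W W 0) k, this]
          simp only [mul_assoc]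
        rw [e3, ← e1, up_mul_up, up_mul_up]
        have e4 : t ^ (m - 2 * e) * u * W = - (t ^ m) * W⁻¹ := by
          rw [hu, _root_.zpow_sub]
          simp only [neg_mul, mul_neg, pow_two]
          congr 1
          rw [_root_.mul_inv_rev]
          calc t ^ m * (t ^ (2 * e))⁻¹ * (t ^ (2 * e) * (W⁻¹ * W⁻¹)) * W
              = t ^ m * ((t ^ (2 * e))⁻¹ * t ^ (2 * e)) * W⁻¹ * (W⁻¹ * W) := by
                simp only [mul_assoc]
            _ = t ^ m * W⁻¹ := by simp
        rw [e4]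
        ext i j
        rw [GeneralLinearGroup.coe_mul, GeneralLinearGroup.coe_mul, up_coe, up_coe, sw_coe,
          lo_coe]
        fin_cases i <;> fin_cases j <;>
          simp [Matrix.mul_apply, Fin.sum_univ_two, hWc] <;> field_simp
        ring

/-- Lattice reduction at infinity. -/
theorem red (A : Set L) (S : Subgroup (GL (Fin 2) L)) (hsw : sw ∈ S)
    (hA : ∀ a ∈ A, up 1 1 a ∈ S) (hL : ∀ x : L, ∃ a ∈ A, v (x - a) < 1)
    (t : Lˣ) (ht : v (t : L) = exp (1 : ℤ)) (g : GL (Fin 2) L) :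
    ∃ γ ∈ S, ∃ (n : ℕ) (z : Lˣ) (k : GL (Fin 2) L),
      KO v k ∧ g = γ * up (t ^ n) 1 0 * (up z z 0 * k) := by
  obtain ⟨a, d, b, k, hk, rfl⟩ := iwasawa (v := v) g
  have htm : ∀ m : ℤ, v ((t ^ m : Lˣ) : L) = exp m := by
    intro m
    rw [Units.val_zpow_eq_zpow_val, map_zpow₀, ht, ← WithZero.exp_zsmul]
    simp
  obtain ⟨m, hm⟩ : ∃ m : ℤ, v ((a / d : Lˣ) : L) = exp m := by
    refine ⟨log (v ((a / d : Lˣ) : L)), (exp_log ?_).symm⟩
    rw [ne_eq, v.zero_iff]
    exact Units.ne_zero _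
  set u : Lˣ := (a / d) / t ^ m with hu
  have hvu : v (u : L) = 1 := by
    rw [hu, Units.val_div_eq_div_val, map_div₀, hm, htm, div_self]
    exact exp_ne_zero
  obtain ⟨γ, hγ, n, z, k', hk', e⟩ := red_aux A S hsw hA hL t ht (-m).toNat m (b / d)
    (Int.self_le_toNat _)
  refine ⟨γ, hγ, n, z * d, k' * up u 1 0 * k,
    (hk'.mul (KO_up hvu (by simp) (by simp))).mul hk, ?_⟩
  have e2 : up (z * d) (z * d) 0 = up z z 0 * up d d (0 : L) := by
    rw [up_mul_up]; simp
  have e3 : γ * up (t ^ n) 1 0 * (up (z * d) (z * d) 0 * (k' * up u 1 0 * k))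
      = (γ * up (t ^ n) 1 0 * (up z z 0 * k')) * up u 1 0 * up d d 0 * k := by
    rw [e2]
    have := up_zz_comm d (k' * up u 1 0)
    simp only [mul_assoc] at this ⊢
    rw [← mul_assoc (up d d 0) k', ← mul_assoc (up d d 0 * k')]
    rw [mul_assoc (up d d 0) k', this]
    simp only [mul_assoc]
  rw [e3, ← e, up_mul_up, up_mul_up]
  congr 1
  have e4 : t ^ m * u * d = a := by
    rw [hu, mul_div_cancel, div_mul_cancel]
  rw [e4]
  ext i j
  rw [up_coe, up_coe]
  fin_cases i <;> fin_cases j <;> simp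

end red

end Pool.Agent.T2h93.AL
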